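import Mathlib
import Pool.Agent.Helper59.RE.Defs

/-!
Weyl's criterion on the torus for boxes.
-/

namespace Pool.Agent.Helper59.WD

open Finset MeasureTheory Filter Topology UnitAddTorus
open Pool.Agent.Helper59.RE (e norm_e e_add)

noncomputable local instance : MeasureSpace UnitAddCircle := ⟨AddCircle.haarAddCircle⟩

local instance : IsProbabilityMeasure (volume : Measure UnitAddCircle) :=
  inferInstanceAs (IsProbabilityMeasure AddCircle.haarAddCircle)

variable {d : Type*} [Fintype d]

/-- The class of a vector. -/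
def pr (u : d → ℝ) : UnitAddTorus d := fun i => (u i : UnitAddCircle)

theorem int_mFourier (h : d → ℤ) (hh : h ≠ 0) :
    ∫ x : UnitAddTorus d, mFourier h x = 0 := by
  have h1 := (orthonormal_iff_ite.mp (orthonormal_mFourier (d := d))) 0 h
  rw [if_neg (Ne.symm hh)] at h1
  rw [← h1]
  simp only [mFourierLp, ContinuousMap.inner_toLp, ← mFourier_neg, ← mFourier_add, neg_zero,
    add_zero]

theorem fourier_e (n : ℤ) (x : ℝ) : fourier n (x : UnitAddCircle) = e (n * x) := by
  rw [fourier_coe_apply]
  unfold e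
  congr 1
  push_cast
  ring

omit [Fintype d] in
theorem e_sum (S : Finset d) (f : d → ℝ) : e (∑ i ∈ S, f i) = ∏ i ∈ S, e (f i) := by
  classical
  induction S using Finset.induction_on with
  | empty => simp [e]
  | insert i S hi ih => rw [sum_insert hi, prod_insert hi, e_add, ih]

theorem mFourier_pr (h : d → ℤ) (u : d → ℝ) : mFourier h (pr u) = e (∑ i, h i * u i) := by
  rw [e_sum]
  simp only [mFourier, ContinuousMap.coe_mk, pr, fourier_e]

/-- The averages of a continuous function. -/
theorem avg_cont (u : ℕ → d → ℝ)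
    (hu : ∀ h : d → ℤ, h ≠ 0 →
      Tendsto (fun N : ℕ => (∑ n ∈ range N, e (∑ i, h i * u n i)) / N) atTop (𝓝 0))
    (f : C(UnitAddTorus d, ℂ)) :
    Tendsto (fun N : ℕ => (∑ n ∈ range N, f (pr (u n))) / N) atTop
      (𝓝 (∫ x, f x)) := by
  have hspan : ∀ g ∈ Submodule.span ℂ (Set.range (mFourier (d := d))),
      Tendsto (fun N : ℕ => (∑ n ∈ range N, g (pr (u n))) / N) atTop (𝓝 (∫ x, g x)) := by
    intro g hg
    induction hg using Submodule.span_induction with
    | mem g hg =>
      obtain ⟨h, rfl⟩ := hg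
      by_cases hh : h = 0
      · subst hh
        rw [mFourier_zero]
        have h1 : ∫ x : UnitAddTorus d, (1 : C(UnitAddTorus d, ℂ)) x = 1 := by
          simp
        rw [h1]
        apply tendsto_const_nhds.congr'
        filter_upwards [eventually_gt_atTop 0] with N hN
        have : (N : ℂ) ≠ 0 := by exact_mod_cast hN.ne'
        simp [this]
      · rw [int_mFourier h hh]
        simp_rw [mFourier_pr]
        exact hu h hh
    | zero =>
      simp
    | add g₁ g₂ h₁ h₂ ih₁ ih₂ =>
      have h3 : ∫ x : UnitAddTorus d, (g₁ + g₂) x = (∫ x, g₁ x) + ∫ x, g₂ x := by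
        simp only [ContinuousMap.add_apply]
        exact integral_add (g₁.continuous.integrable_of_hasCompactSupport
          (HasCompactSupport.of_compactSpace _)) (g₂.continuous.integrable_of_hasCompactSupport
          (HasCompactSupport.of_compactSpace _))
      rw [h3]
      refine (ih₁.add ih₂).congr fun N => ?_
      simp only [ContinuousMap.add_apply, sum_add_distrib, add_div]
    | smul c g hg ih =>
      have h3 : ∫ x : UnitAddTorus d, (c • g) x = c * ∫ x, g x := by
        simp only [ContinuousMap.smul_apply, smul_eq_mul]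
        exact integral_const_mul _ _
      rw [h3]
      refine (ih.const_mul c).congr fun N => ?_
      simp only [ContinuousMap.smul_apply, smul_eq_mul, ← mul_sum]
      ring
  rw [Metric.tendsto_atTop]
  intro ε hε
  have hf : f ∈ (Submodule.span ℂ (Set.range (mFourier (d := d)))).topologicalClosure := by
    rw [span_mFourier_closure_eq_top]
    trivial
  rw [← SetLike.mem_coe, Submodule.topologicalClosure_coe, Metric.mem_closure_iff] at hf
  obtain ⟨g, hg, hfg⟩ := hf (ε / 3) (by positivity)
  obtain ⟨N₀, hN₀⟩ := (Metric.tendsto_atTop.mp (hspan g hg)) (ε / 3) (by positivity)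
  have hpt : ∀ x, ‖f x - g x‖ ≤ ε / 3 := by
    intro x
    rw [← dist_eq_norm]
    exact (ContinuousMap.dist_apply_le_dist x).trans hfg.le
  refine ⟨N₀, fun N hN => ?_⟩
  have h1 : dist ((∑ n ∈ range N, f (pr (u n))) / N) ((∑ n ∈ range N, g (pr (u n))) / N) ≤
      ε / 3 := by
    rw [dist_eq_norm, ← sub_div, ← sum_sub_distrib, norm_div, Complex.norm_natCast]
    apply div_le_of_le_mul₀ (Nat.cast_nonneg N) (by positivity)
    calc ‖∑ n ∈ range N, (f (pr (u n)) - g (pr (u n)))‖ ≤
        ∑ n ∈ range N, ‖f (pr (u n)) - g (pr (u n))‖ := norm_sum_le _ _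
      _ ≤ ∑ n ∈ range N, ε / 3 := sum_le_sum fun n _ => hpt _
      _ = ε / 3 * N := by
        rw [sum_const, card_range, nsmul_eq_mul, mul_comm]
  have h2 : dist (∫ x, g x) (∫ x, f x) ≤ ε / 3 := by
    have i1 : Integrable (fun x => f x) (volume : Measure (UnitAddTorus d)) :=
      f.continuous.integrable_of_hasCompactSupport (HasCompactSupport.of_compactSpace _)
    have i2 : Integrable (fun x => g x) (volume : Measure (UnitAddTorus d)) :=
      g.continuous.integrable_of_hasCompactSupport (HasCompactSupport.of_compactSpace _)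
    rw [dist_comm, dist_eq_norm, ← integral_sub i1 i2]
    have := norm_integral_le_of_norm_le_const (μ := (volume : Measure (UnitAddTorus d)))
      (f := fun x => f x - g x) (C := ε / 3) (Eventually.of_forall hpt)
    simpa using this
  have h3 := hN₀ N hN
  calc dist ((∑ n ∈ range N, f (pr (u n))) / N) (∫ x, f x) ≤
      dist ((∑ n ∈ range N, f (pr (u n))) / N) ((∑ n ∈ range N, g (pr (u n))) / N) +
      dist ((∑ n ∈ range N, g (pr (u n))) / N) (∫ x, g x) + dist (∫ x, g x) (∫ x, f x) :=
        dist_triangle4 _ _ _ _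
    _ < ε / 3 + ε / 3 + ε / 3 := by linarith
    _ = ε := by ring

/-- The empirical measures. -/
noncomputable def emp (u : ℕ → d → ℝ) (N : ℕ) : Measure (UnitAddTorus d) :=
  ∑ n ∈ range (N + 1), ((N + 1 : ℕ) : ENNReal)⁻¹ • Measure.dirac (pr (u n))

instance (u : ℕ → d → ℝ) (N : ℕ) : IsProbabilityMeasure (emp u N) := by
  constructor
  unfold emp
  rw [Measure.finsetSum_apply]
  simp only [Measure.smul_apply, measure_univ, smul_eq_mul, mul_one, sum_const, card_range,
    nsmul_eq_mul]
  exact ENNReal.mul_inv_cancel (by simp) (by simp)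

theorem emp_integral (u : ℕ → d → ℝ) (N : ℕ) (f : UnitAddTorus d → ℝ) :
    ∫ x, f x ∂(emp u N) = (∑ n ∈ range (N + 1), f (pr (u n))) / ((N + 1 : ℕ) : ℝ) := by
  unfold emp
  rw [integral_finsetSum_measure]
  · simp only [integral_smul_measure, integral_dirac, smul_eq_mul]
    rw [← mul_sum]
    simp only [ENNReal.toReal_inv, ENNReal.toReal_natCast]
    rw [div_eq_mul_inv, mul_comm]
  · intro n _
    apply Integrable.smul_measure
    · exact integrable_dirac (by simp)
    · simp

/-- The empirical measures as probability measures. -/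
noncomputable def empP (u : ℕ → d → ℝ) (N : ℕ) : ProbabilityMeasure (UnitAddTorus d) :=
  ⟨emp u N, inferInstance⟩

/-- Haar measure as a probability measure. -/
noncomputable def volP (d : Type*) [Fintype d] : ProbabilityMeasure (UnitAddTorus d) :=
  ⟨volume, inferInstance⟩

theorem emp_weak (u : ℕ → d → ℝ)
    (hu : ∀ h : d → ℤ, h ≠ 0 →
      Tendsto (fun N : ℕ => (∑ n ∈ range N, e (∑ i, h i * u n i)) / N) atTop (𝓝 0)) :
    Tendsto (empP u) atTop (𝓝 (volP d)) := by
  rw [ProbabilityMeasure.tendsto_iff_forall_integral_tendsto]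
  intro f
  change Tendsto (fun N => ∫ x, f x ∂(emp u N)) atTop (𝓝 (∫ x, f x))
  have h1 := avg_cont u hu ⟨fun x => ((f x : ℝ) : ℂ), Complex.continuous_ofReal.comp f.continuous⟩
  simp only [ContinuousMap.coe_mk] at h1
  have h2 := (Complex.continuous_re.tendsto _).comp h1
  have h3 : (∫ x : UnitAddTorus d, ((f x : ℝ) : ℂ)).re = ∫ x, f x := by
    rw [integral_complex_ofReal, Complex.ofReal_re]
  rw [h3] at h2
  have h4 := h2.comp (tendsto_add_atTop_nat 1)
  refine h4.congr fun N => ?_
  rw [emp_integral u N f]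
  simp only [Function.comp_apply]
  rw [← Complex.ofReal_natCast, ← Complex.ofReal_sum, ← Complex.ofReal_div, Complex.ofReal_re]

/-- The representative. -/
noncomputable def rep (x : UnitAddCircle) : ℝ := (AddCircle.equivIco (1 : ℝ) 0 x : ℝ)

theorem rep_coe (x : ℝ) : rep (x : UnitAddCircle) = Int.fract x := by
  unfold rep
  rw [AddCircle.coe_equivIco_mk_apply, div_one, mul_one]

/-- The arc. -/
def arc (s t : ℝ) : Set UnitAddCircle := {x | s ≤ rep x ∧ rep x < t}

theorem arc_coe (s t x : ℝ) : (x : UnitAddCircle) ∈ arc s t ↔ s ≤ Int.fract x ∧ Int.fract x < t := by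
  unfold arc
  rw [Set.mem_ofPred_eq, rep_coe]

theorem arc_image {s t : ℝ} (hs : 0 ≤ s) (ht : t ≤ 1) :
    arc s t = (fun x : ℝ => (x : UnitAddCircle)) '' Set.Ico s t := by
  ext x
  constructor
  · intro hx
    refine ⟨rep x, hx, ?_⟩
    exact (AddCircle.equivIco (1 : ℝ) 0).symm_apply_apply x
  · rintro ⟨y, hy, rfl⟩
    simp only
    rw [arc_coe]
    have : Int.fract y = y := Int.fract_eq_self.mpr ⟨hs.trans hy.1, hy.2.trans_le ht⟩
    rw [this]
    exact hy

theorem frontier_arc {s t : ℝ} (hs : 0 ≤ s) (ht : t ≤ 1) :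
    frontier (arc s t) ⊆ {(s : UnitAddCircle), (t : UnitAddCircle)} := by
  intro x hx
  rw [arc_image hs ht] at hx
  have h1 : x ∈ (fun x : ℝ => (x : UnitAddCircle)) '' Set.Icc s t := by
    have hcl : IsClosed ((fun x : ℝ => (x : UnitAddCircle)) '' Set.Icc s t) :=
      (isCompact_Icc.image (AddCircle.continuous_mk' 1)).isClosed
    have h2 : closure ((fun x : ℝ => (x : UnitAddCircle)) '' Set.Ico s t) ⊆
        (fun x : ℝ => (x : UnitAddCircle)) '' Set.Icc s t :=
      closure_minimal (Set.image_mono Set.Ico_subset_Icc_self) hcl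
    exact h2 hx.1
  have h2 : x ∉ (fun x : ℝ => (x : UnitAddCircle)) '' Set.Ioo s t := by
    intro h3
    apply hx.2
    have hop : IsOpen ((fun x : ℝ => (x : UnitAddCircle)) '' Set.Ioo s t) :=
      (QuotientAddGroup.isOpenMap_coe) _ isOpen_Ioo
    exact (interior_maximal (Set.image_mono Set.Ioo_subset_Ico_self) hop) h3
  obtain ⟨y, hy, rfl⟩ := h1
  by_cases h3 : y = s
  · left
    rw [h3]
  · by_cases h4 : y = t
    · right
      rw [h4]
      rfl
    · exfalso
      exact h2 ⟨y, ⟨lt_of_le_of_ne hy.1 (Ne.symm h3), lt_of_le_of_ne hy.2 h4⟩, rfl⟩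

end Pool.Agent.Helper59.WD
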