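import Mathlib
import Pool.Agent.Helper59.WD.Weyl

/-!
Weyl's criterion on the torus for boxes: the frequencies.
-/

namespace Pool.Agent.Helper59.WD

open Finset MeasureTheory Filter Topology UnitAddTorus
open Pool.Agent.Helper59.RE (e norm_e e_add)

theorem measurable_rep : Measurable rep :=
  measurable_subtype_coe.comp (AddCircle.measurableEquivIco (1 : ℝ) 0).measurable

theorem measurableSet_arc (s t : ℝ) : MeasurableSet (arc s t) :=
  measurable_rep measurableSet_Ico

theorem haar_arc {s t : ℝ} (hs : 0 ≤ s) (ht : t ≤ 1) :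
    (AddCircle.haarAddCircle : Measure (AddCircle (1 : ℝ))) (arc s t) = ENNReal.ofReal (t - s) := by
  have h1 := (AddCircle.measurePreserving_mk 1 0).measure_preimage
    (measurableSet_arc s t).nullMeasurableSet
  rw [AddCircle.volume_eq_smul_haarAddCircle, ENNReal.ofReal_one, one_smul] at h1
  rw [← h1, Measure.restrict_congr_set Ico_ae_eq_Ioc.symm,
    Measure.restrict_apply ((AddCircle.measurable_mk' (a := (1 : ℝ))) (measurableSet_arc s t))]
  have h2 : (fun x : ℝ => (x : AddCircle (1 : ℝ))) ⁻¹' (arc s t) ∩ Set.Ico (0 : ℝ) (0 + 1) =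
      Set.Ico s t := by
    ext x
    rw [Set.mem_inter_iff, Set.mem_preimage]
    constructor
    · rintro ⟨hx, hx1, hx2⟩
      have hx3 := (arc_coe s t x).mp hx
      have : Int.fract x = x := Int.fract_eq_self.mpr ⟨hx1, by linarith⟩
      rw [this] at hx3
      exact hx3
    · rintro ⟨hx1, hx2⟩
      have : Int.fract x = x := Int.fract_eq_self.mpr ⟨by linarith, by linarith⟩
      refine ⟨(arc_coe s t x).mpr ?_, by linarith, by linarith⟩
      rw [this]
      exact ⟨hx1, hx2⟩
  rw [h2, Real.volume_Ico]

noncomputable local instance : MeasureSpace UnitAddCircle := ⟨AddCircle.haarAddCircle⟩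

local instance : IsProbabilityMeasure (volume : Measure UnitAddCircle) :=
  inferInstanceAs (IsProbabilityMeasure AddCircle.haarAddCircle)

local instance : Measure.IsAddHaarMeasure (volume : Measure UnitAddCircle) :=
  inferInstanceAs (Measure.IsAddHaarMeasure AddCircle.haarAddCircle)

variable {d : Type*} [Fintype d]

/-- The box. -/
def box (s t : d → ℝ) : Set (UnitAddTorus d) := Set.univ.pi (fun i => arc (s i) (t i))

theorem haar_single (x : UnitAddCircle) : (volume : Measure UnitAddCircle) {x} = 0 := by
  by_contra h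
  have h1 : ∀ y : UnitAddCircle, (volume : Measure UnitAddCircle) {y} = volume {x} := by
    intro y
    have := measure_preimage_add (volume : Measure UnitAddCircle) (x - y) {x}
    rw [← this]
    congr 1
    ext z
    simp only [Set.mem_singleton_iff, Set.mem_preimage]
    constructor
    · rintro rfl
      abel
    · intro hz
      have h2 : z = (x - y + z) - (x - y) := by abel
      rw [hz] at h2
      rw [h2]
      abel
  have h2 : (volume : Measure UnitAddCircle) Set.univ = 1 := measure_univ
  have h3 : Set.Infinite (Set.univ : Set UnitAddCircle) := by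
    have : Infinite UnitAddCircle := by
      apply Infinite.of_injective (fun n : ℕ => ((1 / ((n : ℝ) + 2) : ℝ) : UnitAddCircle))
      intro n m hnm
      simp only at hnm
      have h4 := congrArg rep hnm
      rw [rep_coe, rep_coe] at h4
      have h5 : ∀ k : ℕ, Int.fract (1 / ((k : ℝ) + 2)) = 1 / ((k : ℝ) + 2) := by
        intro k
        apply Int.fract_eq_self.mpr
        refine ⟨by positivity, ?_⟩
        rw [div_lt_one (by positivity)]
        have : (0 : ℝ) ≤ k := Nat.cast_nonneg k
        linarith
      rw [h5, h5] at h4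
      have h6 : (n : ℝ) + 2 = m + 2 := by
        field_simp at h4
        linarith
      have : (n : ℝ) = m := by linarith
      exact_mod_cast this
    exact Set.infinite_univ
  have h4 := Measure.finite_const_le_meas_of_disjoint_iUnion (μ := (volume : Measure UnitAddCircle))
    (As := fun y : UnitAddCircle => {y}) (ε := volume {x}) (pos_iff_ne_zero.mpr h)
    (fun y => measurableSet_singleton y) (fun y z hyz => by
      simpa using hyz) (measure_ne_top _ _)
  have h5 : {y : UnitAddCircle | volume {x} ≤ (volume : Measure UnitAddCircle) {y}} = Set.univ := by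
    ext y
    simp
  rw [h5] at h4
  exact h3 h4

theorem frontier_box {s t : d → ℝ} (hs : ∀ i, 0 ≤ s i) (ht : ∀ i, t i ≤ 1) :
    (volume : Measure (UnitAddTorus d)) (frontier (box s t)) = 0 := by
  have h1 : frontier (box s t) ⊆ ⋃ i : d, (fun x : UnitAddTorus d => x i) ⁻¹'
      (frontier (arc (s i) (t i))) := by
    intro x hx
    obtain ⟨hx1, hx2⟩ := hx
    unfold box at hx1 hx2
    rw [closure_pi_set] at hx1
    rw [interior_pi_set (Set.finite_univ)] at hx2
    rw [Set.mem_pi] at hx2
    push Not at hx2
    obtain ⟨i, -, hi⟩ := hx2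
    exact Set.mem_iUnion.mpr ⟨i, hx1 i (Set.mem_univ i), hi⟩
  refine measure_mono_null h1 ?_
  rw [measure_iUnion_null_iff]
  intro i
  have hmp := measurePreserving_eval (fun _ : d => (volume : Measure UnitAddCircle)) i
  have h2 : (volume : Measure UnitAddCircle) (frontier (arc (s i) (t i))) = 0 := by
    refine measure_mono_null (frontier_arc (hs i) (ht i)) ?_
    rw [Set.insert_eq]
    exact measure_union_null (haar_single _) (haar_single _)
  exact hmp.quasiMeasurePreserving.preimage_null h2

theorem volume_box {s t : d → ℝ} (hs : ∀ i, 0 ≤ s i) (ht : ∀ i, t i ≤ 1) :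
    (volume : Measure (UnitAddTorus d)) (box s t) = ∏ i, ENNReal.ofReal (t i - s i) := by
  unfold box
  rw [volume_pi_pi]
  apply prod_congr rfl
  intro i _
  exact haar_arc (hs i) (ht i)

open scoped Classical in
theorem emp_box (u : ℕ → d → ℝ) (N : ℕ) (s t : d → ℝ) :
    emp u N (box s t) = (((range (N + 1)).filter (fun n => ∀ i, s i ≤ Int.fract (u n i) ∧
      Int.fract (u n i) < t i)).card : ENNReal) * ((N + 1 : ℕ) : ENNReal)⁻¹ := by
  unfold emp
  rw [Measure.finsetSum_apply]
  simp only [Measure.smul_apply, smul_eq_mul, Measure.dirac_apply]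
  rw [← mul_sum, mul_comm]
  congr 1
  rw [card_filter]
  push_cast
  apply sum_congr rfl
  intro n _
  have : pr (u n) ∈ box s t ↔ ∀ i, s i ≤ Int.fract (u n i) ∧ Int.fract (u n i) < t i := by
    unfold box pr
    rw [Set.mem_univ_pi]
    exact forall_congr' fun i => arc_coe _ _ _
  by_cases h : ∀ i, s i ≤ Int.fract (u n i) ∧ Int.fract (u n i) < t i
  · rw [if_pos h, Set.indicator_of_mem (this.mpr h)]
    rfl
  · rw [if_neg h, Set.indicator_of_notMem (fun h' => h (this.mp h'))]

open scoped Classical in
/-- **Weyl's criterion.** -/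
theorem weyl (u : ℕ → d → ℝ)
    (hu : ∀ h : d → ℤ, h ≠ 0 →
      Tendsto (fun N : ℕ => (∑ n ∈ range N, e (∑ i, h i * u n i)) / N) atTop (𝓝 0))
    (s t : d → ℝ) (hs : ∀ i, 0 ≤ s i) (hst : ∀ i, s i ≤ t i) (ht : ∀ i, t i ≤ 1) :
    Tendsto (fun N : ℕ => (((range N).filter (fun n => ∀ i, s i ≤ Int.fract (u n i) ∧
      Int.fract (u n i) < t i)).card : ℝ) / N) atTop (𝓝 (∏ i, (t i - s i))) := by
  have h1 := ProbabilityMeasure.tendsto_measure_of_null_frontier_of_tendsto' (emp_weak u hu)
    (E := box s t) (frontier_box hs ht)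
  have h2 : Tendsto (fun N => emp u N (box s t)) atTop (𝓝 (∏ i, ENNReal.ofReal (t i - s i))) := by
    rw [← volume_box hs ht]
    exact h1
  have h3 := (ENNReal.tendsto_toReal (ENNReal.prod_ne_top fun i _ => ENNReal.ofReal_ne_top)).comp h2
  rw [ENNReal.toReal_prod] at h3
  have h4 : ∏ i, (ENNReal.ofReal (t i - s i)).toReal = ∏ i, (t i - s i) := by
    apply prod_congr rfl
    intro i _
    exact ENNReal.toReal_ofReal (sub_nonneg.mpr (hst i))
  rw [h4] at h3
  rw [← tendsto_add_atTop_iff_nat 1]
  refine h3.congr fun N => ?_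
  simp only [Function.comp_apply]
  rw [emp_box, ENNReal.toReal_mul, ENNReal.toReal_inv, ENNReal.toReal_natCast,
    ENNReal.toReal_natCast, div_eq_mul_inv]

end Pool.Agent.Helper59.WD
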