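import Mathlib
import Pool.Agent.Helper59.RE.Defs

/-!
The easy half of Weyl's criterion.
-/

namespace Pool.Agent.Helper59.WD

open Finset Filter Topology
open Pool.Agent.Helper59.RE (e norm_e e_add e_int)

theorem e_fract (x : ℝ) : e (Int.fract x) = e x := by
  have h : e x = e (Int.fract x) * e (⌊x⌋ : ℝ) := by
    rw [← e_add]
    congr 1
    have := Int.self_sub_floor x
    linarith
  rw [h, e_int, mul_one]

theorem e_lip (x y : ℝ) : ‖e x - e y‖ ≤ 2 * Real.pi * |x - y| := by
  have h1 := Real.norm_exp_I_mul_ofReal_sub_one_le (x := 2 * Real.pi * (x - y))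
  have h2 : e x - e y = e y * (Complex.exp (Complex.I * ((2 * Real.pi * (x - y) : ℝ) : ℂ)) - 1) := by
    have h3 : e x = e y * Complex.exp (Complex.I * ((2 * Real.pi * (x - y) : ℝ) : ℂ)) := by
      unfold e
      rw [← Complex.exp_add]
      congr 1
      push_cast
      ring
    rw [h3]
    ring
  rw [h2, norm_mul, norm_e, one_mul]
  refine h1.trans ?_
  rw [Real.norm_eq_abs, abs_mul, abs_of_pos (by positivity : (0 : ℝ) < 2 * Real.pi)]

theorem sum_roots (M : ℕ) (hM : 2 ≤ M) : ∑ m ∈ range M, e ((m : ℝ) / M) = 0 := by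
  have hM0 : (M : ℝ) ≠ 0 := by
    have : 0 < M := by omega
    exact_mod_cast this.ne'
  have h1 : ∀ m : ℕ, e ((m : ℝ) / M) = e (1 / M) ^ m := by
    intro m
    induction m with
    | zero => simp [e]
    | succ m ih =>
      rw [pow_succ, ← ih, ← e_add]
      congr 1
      push_cast
      ring
  simp_rw [h1]
  have h2 : e (1 / M) ≠ 1 := by
    intro h3
    unfold e at h3
    rw [Complex.exp_eq_one_iff] at h3
    obtain ⟨n, hn⟩ := h3
    have h4 : ((1 / M : ℝ) : ℂ) = n := by
      have hpi : (2 * (Real.pi : ℂ) * Complex.I) ≠ 0 := by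
        simp [Real.pi_ne_zero]
      have : 2 * (Real.pi : ℂ) * Complex.I * ((1 / M : ℝ) : ℂ) = 2 * Real.pi * Complex.I * n := by
        rw [hn]
        ring
      exact mul_left_cancel₀ hpi this
    have h5 : (1 / M : ℝ) = n := by exact_mod_cast h4
    have h6 : (0 : ℝ) < 1 / M := by positivity
    have h7 : (1 / M : ℝ) < 1 := by
      rw [div_lt_one (by positivity)]
      exact_mod_cast (by omega : 1 < M)
    rw [h5] at h6 h7
    have h8 : (0 : ℤ) < n := by exact_mod_cast h6
    have h9 : n < (1 : ℤ) := by exact_mod_cast h7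
    omega
  have h3 := geom_sum_eq h2 M
  rw [h3]
  have h4 : e (1 / M) ^ M = 1 := by
    rw [← h1, div_self hM0]
    simpa using e_int 1
  rw [h4, sub_self, zero_div]

/-- The exponential sums of a uniformly distributed sequence are small. -/
theorem ud_exp (u : ℕ → ℝ)
    (hu : ∀ s t : ℝ, 0 ≤ s → s < t → t ≤ 1 →
      Tendsto (fun N : ℕ => (((range N).filter
        (fun n => s ≤ Int.fract (u n) ∧ Int.fract (u n) < t)).card : ℝ) / N) atTop (𝓝 (t - s))) :
    Tendsto (fun N : ℕ => (∑ n ∈ range N, e (u n)) / N) atTop (𝓝 0) := by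
  rw [Metric.tendsto_atTop]
  intro ε hε
  obtain ⟨M, hM⟩ := exists_nat_gt (4 * Real.pi / ε + 2)
  have hpi := Real.pi_pos
  have hM2 : 2 ≤ M := by
    have h1 : (2 : ℝ) < M := by
      have : 0 < 4 * Real.pi / ε := by positivity
      linarith
    have : 2 < M := by exact_mod_cast h1
    omega
  have hM0 : (0 : ℝ) < M := by
    have : 0 < M := by omega
    exact_mod_cast this
  have hMε : 2 * Real.pi / M < ε / 2 := by
    rw [div_lt_iff₀ hM0]
    have h1 : 4 * Real.pi / ε < M := by linarith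
    rw [div_lt_iff₀ hε] at h1
    linarith
  set F : ℕ → ℕ → ℝ := fun m N => (((range N).filter
        (fun n => (m : ℝ) / M ≤ Int.fract (u n) ∧ Int.fract (u n) < ((m + 1 : ℕ) : ℝ) / M)).card : ℝ) / N
    with hF
  have hFm : ∀ m ∈ range M, Tendsto (F m) atTop (𝓝 (1 / M)) := by
    intro m hm
    have hm' := Finset.mem_range.mp hm
    have h1 := hu (m / M) (((m + 1 : ℕ) : ℝ) / M) (by positivity) (by
      apply div_lt_div_of_pos_right _ hM0
      push_cast
      linarith) (by
      rw [div_le_one hM0]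
      exact_mod_cast hm')
    have h2 : ((m + 1 : ℕ) : ℝ) / M - m / M = 1 / M := by
      push_cast
      ring
    rw [h2] at h1
    exact h1
  have hsum : Tendsto (fun N => ∑ m ∈ range M, (F m N : ℂ) * e ((m : ℝ) / M)) atTop (𝓝 0) := by
    have h1 : Tendsto (fun N => ∑ m ∈ range M, (F m N : ℂ) * e ((m : ℝ) / M)) atTop
        (𝓝 (∑ m ∈ range M, ((1 / M : ℝ) : ℂ) * e ((m : ℝ) / M))) := by
      apply tendsto_finsetSum
      intro m hm
      exact ((Complex.continuous_ofReal.tendsto _).comp (hFm m hm)).mul_const _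
    rw [← mul_sum, sum_roots M hM2, mul_zero] at h1
    exact h1
  obtain ⟨N₀, hN₀⟩ := (Metric.tendsto_atTop.mp hsum) (ε / 2) (by positivity)
  refine ⟨N₀ + 1, fun N hN => ?_⟩
  have hNpos : 0 < N := by omega
  have hNr : (0 : ℝ) < N := by exact_mod_cast hNpos
  have h1 := hN₀ N (by omega)
  rw [dist_zero_right] at h1 ⊢
  -- the cell of n
  set cl : ℕ → ℕ := fun n => ⌊Int.fract (u n) * M⌋₊ with hcl
  have hcl1 : ∀ n, cl n < M := by
    intro n
    rw [hcl]
    simp only
    rw [Nat.floor_lt (mul_nonneg (Int.fract_nonneg _) hM0.le)]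
    have := Int.fract_lt_one (u n)
    nlinarith
  have hcl2 : ∀ n, (cl n : ℝ) / M ≤ Int.fract (u n) := by
    intro n
    rw [div_le_iff₀ hM0]
    exact Nat.floor_le (mul_nonneg (Int.fract_nonneg _) hM0.le)
  have hcl3 : ∀ n, Int.fract (u n) < ((cl n + 1 : ℕ) : ℝ) / M := by
    intro n
    rw [lt_div_iff₀ hM0]
    push_cast
    exact Nat.lt_floor_add_one _
  have hcl4 : ∀ n m : ℕ, ((m : ℝ) / M ≤ Int.fract (u n) ∧ Int.fract (u n) < ((m + 1 : ℕ) : ℝ) / M) ↔
      cl n = m := by
    intro n m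
    constructor
    · rintro ⟨h2, h3⟩
      rw [div_le_iff₀ hM0] at h2
      rw [lt_div_iff₀ hM0] at h3
      rw [hcl]
      simp only
      rw [Nat.floor_eq_iff (mul_nonneg (Int.fract_nonneg _) hM0.le)]
      push_cast at h3
      exact ⟨h2, h3⟩
    · rintro rfl
      exact ⟨hcl2 n, hcl3 n⟩
  have h2 : ∑ m ∈ range M, (F m N : ℂ) * e ((m : ℝ) / M) =
      (∑ n ∈ range N, e ((cl n : ℝ) / M)) / N := by
    have h3 : ∀ m ∈ range M, (F m N : ℂ) * e ((m : ℝ) / M) =
        (∑ n ∈ (range N).filter (fun n => cl n = m), e ((cl n : ℝ) / M)) / N := by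
      intro m _
      rw [sum_congr rfl (fun n hn => by rw [(Finset.mem_filter.mp hn).2] :
        ∀ n ∈ (range N).filter (fun n => cl n = m), e ((cl n : ℝ) / M) = e ((m : ℝ) / M))]
      rw [sum_const, nsmul_eq_mul, hF]
      simp only [hcl4]
      push_cast
      ring
    rw [sum_congr rfl h3, ← sum_div]
    congr 1
    rw [Finset.sum_fiberwise_of_maps_to]
    intro n _
    exact Finset.mem_range.mpr (hcl1 n)
  rw [h2] at h1
  have h3 : ‖(∑ n ∈ range N, e (u n)) / N - (∑ n ∈ range N, e ((cl n : ℝ) / M)) / N‖ ≤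
      2 * Real.pi / M := by
    rw [← sub_div, ← sum_sub_distrib, norm_div, Complex.norm_natCast]
    apply div_le_of_le_mul₀ hNr.le (by positivity)
    calc ‖∑ n ∈ range N, (e (u n) - e ((cl n : ℝ) / M))‖ ≤
        ∑ n ∈ range N, ‖e (u n) - e ((cl n : ℝ) / M)‖ := norm_sum_le _ _
      _ ≤ ∑ n ∈ range N, 2 * Real.pi / M := by
        apply sum_le_sum
        intro n _
        rw [← e_fract (u n)]
        refine (e_lip _ _).trans ?_
        have h4 : |Int.fract (u n) - (cl n : ℝ) / M| ≤ 1 / M := by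
          rw [abs_of_nonneg (sub_nonneg.mpr (hcl2 n))]
          have := hcl3 n
          push_cast at this
          rw [add_div] at this
          linarith
        calc 2 * Real.pi * |Int.fract (u n) - (cl n : ℝ) / M| ≤ 2 * Real.pi * (1 / M) := by gcongr
          _ = 2 * Real.pi / M := by ring
      _ = 2 * Real.pi / M * N := by
        rw [sum_const, card_range, nsmul_eq_mul, mul_comm]
  calc ‖(∑ n ∈ range N, e (u n)) / N‖ ≤
      ‖(∑ n ∈ range N, e (u n)) / N - (∑ n ∈ range N, e ((cl n : ℝ) / M)) / N‖ +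
        ‖(∑ n ∈ range N, e ((cl n : ℝ) / M)) / N‖ := by
        have := norm_add_le ((∑ n ∈ range N, e (u n)) / N - (∑ n ∈ range N, e ((cl n : ℝ) / M)) / N)
          ((∑ n ∈ range N, e ((cl n : ℝ) / M)) / N)
        rwa [sub_add_cancel] at this
    _ < ε := by linarith

end Pool.Agent.Helper59.WD
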