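import Mathlib
import Pool.Agent.Helper59.WD.Box
import Pool.Agent.Helper59.WD.UdExp

/-!
Joint and complete equidistribution from the scalar statement.
-/

namespace Pool.Agent.Helper59.WD

open Finset Filter Topology MeasureTheory
open Pool.Agent.Helper59.RE (e norm_e e_add e_int)

/-- The leading term of a linear combination of the powers of distinct numbers. -/
theorem leading {d k : ℕ} (β : Fin d → ℝ) (hinj : Function.Injective β) (hβ : ∀ i, 1 < β i)
    (htr : ∀ i, Transcendental ℚ (β i)) (h : Fin d × Fin k → ℤ) (hh : h ≠ 0) :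
    ∃ (i : Fin d) (ρ γ K : ℝ), ρ ≠ 0 ∧ 0 ≤ γ ∧ γ < β i ∧
      ∀ n : ℕ, |(∑ x : Fin d × Fin k, h x * β x.1 ^ (n + (x.2 : ℕ))) - ρ * β i ^ n| ≤ K * γ ^ n := by
  classical
  set P : Fin d → ℝ := fun i => ∑ j : Fin k, h (i, j) * β i ^ (j : ℕ) with hP
  have hsum : ∀ n : ℕ, (∑ x : Fin d × Fin k, h x * β x.1 ^ (n + (x.2 : ℕ))) =
      ∑ i, P i * β i ^ n := by
    intro n
    rw [Fintype.sum_prod_type]
    apply sum_congr rfl
    intro i _
    rw [hP]
    simp only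
    rw [sum_mul]
    apply sum_congr rfl
    intro j _
    rw [pow_add]
    ring
  have hne : ∃ i, P i ≠ 0 := by
    obtain ⟨⟨i, j⟩, hij⟩ := Function.ne_iff.mp hh
    refine ⟨i, fun h0 => hij ?_⟩
    set Q : Polynomial ℚ := ∑ j : Fin k, Polynomial.C ((h (i, j) : ℤ) : ℚ) * Polynomial.X ^ (j : ℕ)
      with hQ
    have h1 : Polynomial.aeval (β i) Q = 0 := by
      rw [hQ, map_sum, ← h0, hP]
      simp only [map_mul, Polynomial.aeval_C, map_pow, Polynomial.aeval_X]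
      apply sum_congr rfl
      intro j _
      simp
    have h2 : Q = 0 := (transcendental_iff.mp (htr i)) Q h1
    have h3 : Q.coeff (j : ℕ) = ((h (i, j) : ℤ) : ℚ) := by
      rw [hQ, Polynomial.finsetSum_coeff]
      simp only [Polynomial.coeff_C_mul, Polynomial.coeff_X_pow]
      rw [sum_eq_single j]
      · simp
      · intro j' _ hj'
        rw [if_neg (fun h => hj' (Fin.ext h.symm)), mul_zero]
      · intro hj
        exact absurd (mem_univ j) hj
    rw [h2, Polynomial.coeff_zero] at h3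
    have : h (i, j) = 0 := by exact_mod_cast h3.symm
    exact this
  -- the largest one
  obtain ⟨i₀, hi₀, hmax⟩ := (univ.filter (fun i => P i ≠ 0)).exists_max_image β (by
    obtain ⟨i, hi⟩ := hne
    exact ⟨i, mem_filter.mpr ⟨mem_univ i, hi⟩⟩)
  have hP₀ : P i₀ ≠ 0 := (mem_filter.mp hi₀).2
  have hlt : ∀ i, i ≠ i₀ → P i ≠ 0 → β i < β i₀ := by
    intro i hi hPi
    exact lt_of_le_of_ne (hmax i (mem_filter.mpr ⟨mem_univ i, hPi⟩)) (fun h => hi (hinj h))
  -- a bound for the others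
  obtain ⟨γ, hγ1, hγ2, hγ3⟩ : ∃ γ : ℝ, 1 ≤ γ ∧ γ < β i₀ ∧ ∀ i, i ≠ i₀ → P i ≠ 0 → β i ≤ γ := by
    by_cases hex : ∃ i, i ≠ i₀ ∧ P i ≠ 0
    · obtain ⟨i₁, hi₁, hmax₁⟩ := (univ.filter (fun i => i ≠ i₀ ∧ P i ≠ 0)).exists_max_image β (by
        obtain ⟨i, hi⟩ := hex
        exact ⟨i, mem_filter.mpr ⟨mem_univ i, hi⟩⟩)
      have h1 := (mem_filter.mp hi₁).2
      refine ⟨β i₁, (hβ i₁).le, hlt i₁ h1.1 h1.2, fun i hi hPi => ?_⟩
      exact hmax₁ i (mem_filter.mpr ⟨mem_univ i, hi, hPi⟩)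
    · push Not at hex
      exact ⟨1, le_rfl, hβ i₀, fun i hi hPi => absurd (hex i hi) hPi⟩
  refine ⟨i₀, P i₀, γ, ∑ i, |P i|, hP₀, by linarith, hγ2, fun n => ?_⟩
  rw [hsum, ← Finset.add_sum_erase _ _ (mem_univ i₀), add_sub_cancel_left]
  calc |∑ i ∈ univ.erase i₀, P i * β i ^ n| ≤ ∑ i ∈ univ.erase i₀, |P i * β i ^ n| :=
        Finset.abs_sum_le_sum_abs _ _
    _ ≤ ∑ i ∈ univ.erase i₀, |P i| * γ ^ n := by
        apply sum_le_sum
        intro i hi
        rw [abs_mul, abs_of_nonneg (pow_nonneg (by have := hβ i; linarith : (0 : ℝ) ≤ β i) n)]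
        by_cases h0 : P i = 0
        · rw [h0]
          simp
        · apply mul_le_mul_of_nonneg_left _ (abs_nonneg _)
          exact pow_le_pow_left₀ (by have := hβ i; linarith) (hγ3 i (ne_of_mem_erase hi) h0) n
    _ = (∑ i ∈ univ.erase i₀, |P i|) * γ ^ n := by rw [sum_mul]
    _ ≤ (∑ i, |P i|) * γ ^ n := by
        apply mul_le_mul_of_nonneg_right _ (by positivity)
        exact sum_le_sum_of_subset_of_nonneg (erase_subset _ _) (fun i _ _ => abs_nonneg _)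

theorem irr_of_transcendental (b : ℕ) (hb : 2 ≤ b) {β : ℝ} (hβ : 1 < β)
    (htr : Transcendental ℚ β) : Irrational (Real.log β / Real.log b) := by
  intro hrat
  obtain ⟨x, hx⟩ := hrat
  have hlb : 0 < Real.log b := Real.log_pos (by exact_mod_cast (by omega : 1 < b))
  have hlβ : 0 < Real.log β := Real.log_pos hβ
  have hx0 : 0 < x := by
    have h1 : (0 : ℝ) < (x : ℝ) := by rw [hx]; positivity
    exact_mod_cast h1
  have hnum : 0 < x.num := Rat.num_pos.2 hx0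
  have hbR : (0 : ℝ) < b := by exact_mod_cast (by omega : 0 < b)
  have hpow : β ^ x.den = (b : ℝ) ^ x.num.toNat := by
    have h1 : (x.den : ℝ) * Real.log β = x.num * Real.log b := by
      have h2 : (x : ℝ) = x.num / x.den := Rat.cast_def x
      have h3 : (x.den : ℝ) ≠ 0 := by exact_mod_cast x.pos.ne'
      rw [h2, div_eq_div_iff h3 hlb.ne'] at hx
      linarith
    apply Real.log_injOn_pos (Set.mem_Ioi.2 (by positivity)) (Set.mem_Ioi.2 (by positivity))
    rw [Real.log_pow, Real.log_pow, h1]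
    congr 1
    have h4 : ((x.num.toNat : ℤ) : ℝ) = (x.num : ℝ) := by
      rw [Int.toNat_of_nonneg hnum.le]
    rw [← h4]
    norm_cast
  apply htr
  refine ⟨Polynomial.X ^ x.den - Polynomial.C ((b : ℚ) ^ x.num.toNat), ?_, ?_⟩
  · exact Polynomial.X_pow_sub_C_ne_zero x.pos _
  · rw [map_sub, map_pow, Polynomial.aeval_X, Polynomial.aeval_C, hpow]
    simp

open scoped Classical in
/-- Joint equidistribution. -/
theorem joint {Ω : Type*} [MeasurableSpace Ω] (μ : Measure Ω) (b : ℕ) (hb : 2 ≤ b) (X : Ω → ℝ)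
    (a : ℕ → ℕ)
    (H : ∀ β ρ γ K : ℝ, 1 < β → Irrational (Real.log β / Real.log b) → ρ ≠ 0 → 0 ≤ γ → γ < β →
      ∀ v : ℕ → ℝ, (∀ n, |v n - ρ * β ^ n| ≤ K * γ ^ n) → ∀ c : ℕ → ℝ,
      ∀ᵐ ω ∂μ, ∀ s t : ℝ, 0 ≤ s → s < t → t ≤ 1 →
        Tendsto (fun N : ℕ => (((range N).filter
          (fun n => s ≤ Int.fract (X ω * v (a n) + c n) ∧ Int.fract (X ω * v (a n) + c n) < t)).card
            : ℝ) / N) atTop (𝓝 (t - s)))
    {d k : ℕ} (β : Fin d → ℝ) (hinj : Function.Injective β) (hβ : ∀ i, 1 < β i)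
    (htr : ∀ i, Transcendental ℚ (β i)) (c : ℕ → Fin d × Fin k → ℝ) :
    ∀ᵐ ω ∂μ, ∀ s t : Fin d × Fin k → ℝ, (∀ x, 0 ≤ s x) → (∀ x, s x ≤ t x) → (∀ x, t x ≤ 1) →
      Tendsto (fun N : ℕ => (((range N).filter (fun n => ∀ x : Fin d × Fin k,
        s x ≤ Int.fract (X ω * β x.1 ^ (a n + (x.2 : ℕ)) + c n x) ∧
        Int.fract (X ω * β x.1 ^ (a n + (x.2 : ℕ)) + c n x) < t x)).card : ℝ) / N) atTop
        (𝓝 (∏ x, (t x - s x))) := by
  have h1 : ∀ h : Fin d × Fin k → ℤ, h ≠ 0 → ∀ᵐ ω ∂μ,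
      Tendsto (fun N : ℕ => (∑ n ∈ range N, e (∑ x, h x *
        (X ω * β x.1 ^ (a n + (x.2 : ℕ)) + c n x))) / N) atTop (𝓝 0) := by
    intro h hh
    obtain ⟨i, ρ, γ, K, hρ, hγ0, hγ, hv⟩ := leading β hinj hβ htr h hh
    have h2 := H (β i) ρ γ K (hβ i) (irr_of_transcendental b hb (hβ i) (htr i)) hρ hγ0 hγ
      (fun n => ∑ x : Fin d × Fin k, h x * β x.1 ^ (n + (x.2 : ℕ))) hv
      (fun n => ∑ x, h x * c n x)
    filter_upwards [h2] with ω hω
    have h3 := ud_exp _ hω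
    refine h3.congr fun N => ?_
    congr 1
    apply sum_congr rfl
    intro n _
    congr 1
    rw [mul_sum, ← sum_add_distrib]
    apply sum_congr rfl
    intro x _
    ring
  have h2 : ∀ᵐ ω ∂μ, ∀ h : Fin d × Fin k → ℤ, h ≠ 0 →
      Tendsto (fun N : ℕ => (∑ n ∈ range N, e (∑ x, h x *
        (X ω * β x.1 ^ (a n + (x.2 : ℕ)) + c n x))) / N) atTop (𝓝 0) := by
    rw [ae_all_iff]
    intro h
    by_cases hh : h = 0
    · exact Eventually.of_forall fun ω hc => absurd hh hc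
    · filter_upwards [h1 h hh] with ω hω _ using hω
  filter_upwards [h2] with ω hω s t hs hst ht
  exact weyl (fun n x => X ω * β x.1 ^ (a n + (x.2 : ℕ)) + c n x) hω s t hs hst ht

end Pool.Agent.Helper59.WD
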